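import Pool.Agent.FS.H39Joint.Lev

/-! Joint continuity of the perimeter in the level and the time. -/

open MeasureTheory Set Filter Topology Metric
open scoped ENNReal NNReal RealInnerProductSpace symmDiff

namespace Pool.Agent.FS39

open Pool.Agent.MCF5 Pool.Agent.LevelSetFlow

variable {N : ℕ} {L : ℝ≥0} {R a₁ a₂ B C₀ c : ℝ} {v : ℝ → Sp N → ℝ}

theorem jj_cont (hF : Flow L R a₁ a₂ B C₀ c v) (hc : 0 < c) (hB : 0 ≤ B) (hC : 0 ≤ C₀)
    {κ : ℝ → ℕ → Sp N → ℝ}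
    (hκ : ∀ s, 0 ≤ s → (∀ n, Integrable (κ s n)) ∧ (∀ n, ∫ x, |κ s n x| ≤ B) ∧
      ∀ (a b : ℝ) (ψ : Sp N → ℝ), a₁ ≤ a → a < b → LipC ψ a → ∀ ε : ℝ, 0 < ε →
        ∀ᶠ n in atTop, tv (fun x => cl a b (v s x)) ≤
          tv ψ + (∫ x, |κ s n x| * |ψ x - cl a b (v s x)|) + ε)
    {a T : ℝ} (ha : a₁ < a) (hq : ∀ q : ℚ, volume {x | v q x = a} = 0) (hT : 0 ≤ T)
    (hgood : ∀ e : ℝ, 0 < e → ∃ s σ ρ j : ℝ, 0 ≤ s ∧ (s < T ∨ s = 0) ∧ 0 < σ ∧ 0 < ρ ∧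
      ¬ Bad (κ s) (v s) a σ j ∧ j + (2 * N * c / ρ + 2 * ρ / (σ / 2)) *
        volume.real ({x | a < v s x} ∆ {x | a < v T x}) ≤ e) :
    ContinuousWithinAt (fun z : ℝ × ℝ => perim {x | z.1 < v z.2 x}) {z | 0 ≤ z.2} (a, T) := by
  have hne : ∀ b t, a₁ ≤ b → 0 ≤ t → perim {x | b < v t x} ≠ ∞ := fun b t hb ht =>
    ne_top_of_le_ne_top ENNReal.ofReal_ne_top (ql_bound hF hb ht)
  set P : ℝ × ℝ → ℝ := fun z => (perim {x | z.1 < v z.2 x}).toReal with hP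
  set l : Filter (ℝ × ℝ) := 𝓝[{z | 0 ≤ z.2}] (a, T) with hl
  have hnear : ∀ β : ℝ, 0 < β → ∀ᶠ z in l, |z.1 - a| < β ∧ |z.2 - T| < β := by
    intro β hβ
    filter_upwards [mem_nhdsWithin_of_mem_nhds (ball_mem_nhds (a, T) hβ)] with z hz
    rw [mem_ball, Prod.dist_eq, max_lt_iff, Real.dist_eq, Real.dist_eq] at hz
    exact hz
  have hpos : ∀ᶠ z in l, 0 ≤ z.2 := self_mem_nhdsWithin
  have hlev : ∀ᶠ z in l, a₁ ≤ z.1 := by
    filter_upwards [hnear _ (sub_pos.2 ha)] with z hz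
    linarith [(abs_lt.1 hz.1).1]
  have hupper : ∀ ε, 0 < ε → ∀ᶠ z in l, P z < P (a, T) + ε := by
    intro ε hε
    obtain ⟨s, σ, ρ, j, hs, hsT, hσ, hρ, hb, he⟩ := hgood (ε / 3) (by positivity)
    obtain ⟨K, hK⟩ : ∃ K : ℝ, K = 2 * N * c / ρ + 2 * ρ / (σ / 2) := ⟨_, rfl⟩
    have hK0 : 0 < K := by rw [hK]; positivity
    obtain ⟨β, h1, -, h3⟩ := jl_joint hF hB hC ha hq hs (show 0 < ε / 3 / K by positivity)
    have hst : ∀ᶠ z in l, s ≤ z.2 := by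
      rcases hsT with h | h
      · filter_upwards [hnear _ (sub_pos.2 h)] with z hz
        linarith [(abs_lt.1 hz.2).1]
      · rw [h]
        exact hpos
    filter_upwards [hnear _ h1, hnear _ (half_pos hσ), hst, hlev] with z hz1 hz2 hz3 hz4
    have hb' : ¬ Bad (κ s) (v s) z.1 (σ / 2) j := fun h => hb (h.mono fun n hn => hn.trans
      (setIntegral_mono_set ((hκ s hs).1 n).abs.integrableOn
        (Eventually.of_forall fun x => abs_nonneg _) (LE.le.eventuallyLE fun x hx => by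
          have h5 : |v s x - z.1| < σ / 2 := hx
          have h6 := abs_sub_le (v s x) z.1 a
          show |v s x - a| < σ
          linarith [hz2.1])))
    have k1 := jl_level hF hc hκ hB hC hz4 hs hz3 (half_pos hσ) hρ hb' (fl_meas (hF.data T) a)
      (isBounded_ball.subset (fl_subset (hF.data T) ha.le)) (hne a T ha.le hT)
    have k2 := jl_tri (jl_fin hF hz4 s) (jl_fin hF ha.le s) (jl_fin hF ha.le T)
    have k3 := h3 z.1 s hz1.1 hs (by simpa using h1)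
    rw [← hK] at k1 he
    have k4 := mul_le_mul_of_nonneg_left (k2.trans (add_le_add k3 le_rfl)) hK0.le
    have k5 : K * (ε / 3 / K) = ε / 3 := by field_simp
    rw [mul_add, k5] at k4
    simp only [hP]
    linarith
  have hD : Tendsto (fun z : ℝ × ℝ => volume.real ({x | z.1 < v z.2 x} ∆ {x | a < v T x})) l
      (𝓝 0) := by
    rw [Metric.tendsto_nhds]
    intro γ hγ
    obtain ⟨β, h1, -, h3⟩ := jl_joint hF hB hC ha hq hT (half_pos hγ)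
    filter_upwards [hnear _ h1, hpos] with z hz hz0
    rw [Real.dist_eq, sub_zero, abs_of_nonneg measureReal_nonneg]
    linarith [h3 z.1 z.2 hz.1 hz0 hz.2]
  have hlower : ∀ ε, 0 < ε → ∀ᶠ z in l, P (a, T) - ε < P z := by
    intro ε hε
    by_contra hcon
    rw [not_eventually] at hcon
    have hfr := hcon.and_eventually (hpos.and hlev)
    obtain ⟨z₀, hz₀, -⟩ := hfr.exists
    have hp : 0 ≤ P (a, T) - ε := ENNReal.toReal_nonneg.trans (not_lt.1 hz₀)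
    set S : Set (ℝ × ℝ) := {z | ¬ P (a, T) - ε < P z ∧ 0 ≤ z.2 ∧ a₁ ≤ z.1} with hS
    have : (l ⊓ 𝓟 S).NeBot := frequently_iff_neBot.1 hfr
    have hmax : ∀ᶠ z in l ⊓ 𝓟 S, max z.1 a₁ = z.1 :=
      eventually_inf_principal.2 (Eventually.of_forall fun z hz => max_eq_left hz.2.2)
    have h1 := perim_lsc (l := l ⊓ 𝓟 S) (A := fun z => {x | max z.1 a₁ < v z.2 x})
      (fun z => fl_meas (hF.data z.2) _) (fl_meas (hF.data T) a)
      (fun z => ne_top_of_le_ne_top (measure_union_ne_top (jl_fin hF (le_max_right _ _) z.2)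
        (jl_fin hF ha.le T)) (measure_mono symmDiff_subset_union))
      ((hD.mono_left inf_le_left).congr' (hmax.mono fun z hz => by simp only [hz]))
      (p := ENNReal.ofReal (P (a, T) - ε)) (by
        refine eventually_inf_principal.2 (Eventually.of_forall fun z hz => ?_)
        simp only [max_eq_left hz.2.2]
        rw [← ENNReal.ofReal_toReal (hne z.1 z.2 hz.2.2 hz.2.1)]
        exact ENNReal.ofReal_le_ofReal (not_lt.1 hz.1))
    have h2 : P (a, T) ≤ P (a, T) - ε := ENNReal.toReal_le_of_le_ofReal hp h1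
    linarith
  have hcont : Tendsto P l (𝓝 (P (a, T))) := by
    rw [Metric.tendsto_nhds]
    intro ε hε
    filter_upwards [hupper ε hε, hlower ε hε] with t h1 h2
    rw [Real.dist_eq, abs_lt]
    constructor <;> linarith
  have h3 := (ENNReal.continuous_ofReal.tendsto _).comp hcont
  simp only [hP] at h3
  rw [ENNReal.ofReal_toReal (hne a T ha.le hT)] at h3
  refine h3.congr' ?_
  filter_upwards [hpos, hlev] with z h1 h2
  exact ENNReal.ofReal_toReal (hne z.1 z.2 h2 h1)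

theorem jj_good (hF : Flow L R a₁ a₂ B C₀ c v) (hc : 0 < c) (hB : 0 ≤ B) (hC : 0 ≤ C₀)
    {κ : ℝ → ℕ → Sp N → ℝ} {a T k : ℝ} (ha : a₁ ≤ a) (hT0 : 0 < T) (hk : 0 < k)
    (hgood : ∀ j : ℝ, 0 < j → ∃ᶠ s in 𝓝[<] T, ¬ Bad (κ s) (v s) a (k * (T - s)) j)
    {e : ℝ} (he : 0 < e) : ∃ s σ ρ j : ℝ, 0 ≤ s ∧ (s < T ∨ s = 0) ∧ 0 < σ ∧ 0 < ρ ∧
      ¬ Bad (κ s) (v s) a σ j ∧ j + (2 * N * c / ρ + 2 * ρ / (σ / 2)) *
        volume.real ({x | a < v s x} ∆ {x | a < v T x}) ≤ e := by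
  obtain ⟨p, hp, hV, -, -⟩ := ql_level hF ha
  set D : ℝ → ℝ → ℝ := fun s t => volume.real ({x | a < v s x} ∆ {x | a < v t x}) with hD
  have hCB : 0 ≤ C₀ * B := mul_nonneg hC hB
  have htri : ∀ s t T, D s T ≤ D s t + D t T := fun s t T =>
    jl_tri (jl_fin hF ha s) (jl_fin hF ha t) (jl_fin hF ha T)
  have hne' : (p '' Ico 0 T).Nonempty := ⟨p 0, 0, ⟨le_rfl, hT0⟩, rfl⟩
  have hbd : BddBelow (p '' Ico 0 T) := ⟨0, by
    rintro _ ⟨t, ht, rfl⟩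
    exact (hp t ht.1).1⟩
  set m := sInf (p '' Ico 0 T) with hm
  have hr : ∀ t, 0 ≤ t → t < T → m ≤ p t := fun t h0 h1 => csInf_le hbd ⟨t, ⟨h0, h1⟩, rfl⟩
  obtain ⟨A, hA⟩ : ∃ A : ℝ, A = 2 * N * c + 4 / k := ⟨_, rfl⟩
  have hA0 : 0 < A := by rw [hA]; positivity
  obtain ⟨μ, hμd⟩ : ∃ μ : ℝ, μ = e / 2 / (A * (C₀ * B + 1)) := ⟨_, rfl⟩
  have hμ : 0 < μ := by rw [hμd]; positivity
  have hμe : A * ((C₀ * B + 1) * μ) = e / 2 := by rw [hμd]; field_simp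
  obtain ⟨_, ⟨s₀, hs₀, rfl⟩, hps₀⟩ :=
    exists_lt_of_csInf_lt hne' (show m < m + μ ^ 2 by linarith [pow_pos hμ 2])
  obtain ⟨s, hs, hss⟩ := ((hgood _ (half_pos he)).and_eventually (Ioo_mem_nhdsLT hs₀.2)).exists
  have hs0 : 0 ≤ s := hs₀.1.trans hss.1.le
  obtain ⟨q, hq, hqq⟩ : ∃ q : ℝ, 0 < q ∧ q ^ 2 = T - s :=
    ⟨√(T - s), Real.sqrt_pos.2 (by linarith [hss.2]), Real.sq_sqrt (by linarith [hss.2])⟩
  rw [← hqq] at hs
  refine ⟨s, k * q ^ 2, q, e / 2, hs0, Or.inl hss.2, by positivity, hq, hs, ?_⟩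
  have e1 : 2 * N * c / q + 2 * q / (k * q ^ 2 / 2) = A * q⁻¹ := by
    rw [hA]; field_simp; ring
  have h3 := fk_left (D := D) hCB hp htri hV hs0 hss.2 (lam := μ * q⁻¹) (by positivity) hr
  have e2 : C₀ * B * (μ * q⁻¹) ^ 2 * (T - s) = C₀ * B * μ ^ 2 := by
    rw [← hqq]; field_simp
  have h4 : p s ≤ p s₀ := fk_anti (D := D) hCB (fun _ _ => measureReal_nonneg) hV hs₀.1 hss.1.le
  have h5 : μ * (q⁻¹ * D s T) ≤ μ * ((C₀ * B + 1) * μ) := by
    rw [e2] at h3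
    nlinarith
  have h6 := mul_le_mul_of_nonneg_left (le_of_mul_le_mul_left h5 hμ) hA0.le
  rw [e1, mul_assoc]
  show e / 2 + A * (q⁻¹ * D s T) ≤ e
  linarith

theorem cov_levels {ε : ℝ≥0} {A : Set ℝ} (hA : A.Countable) : Cov ε {z | z.1 ∈ A} := by
  obtain ⟨f, hf⟩ := (hA.insert 0).exists_eq_range (insert_nonempty _ _)
  refine ⟨fun k _ => f k, fun k => LipschitzWith.const' _, fun z hz => ?_⟩
  have : z.1 ∈ range f := hf ▸ mem_insert_of_mem _ hz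
  exact this

theorem Cov.union {ε : ℝ≥0} {S S' : Set (ℝ × ℝ)} (h : Cov ε S) (h' : Cov ε S') :
    Cov ε (S ∪ S') := by
  rw [union_eq_iUnion]
  exact cov_iUnion fun b => by cases b <;> assumption

theorem flow_joint (hF : Flow L R a₁ a₂ B C₀ c v) (hc : 0 < c) (hB : 0 ≤ B) (hC : 0 ≤ C₀)
    {ε : ℝ≥0} (hε : 0 < ε) :
    Cov ε {y | a₁ < y.1 ∧ 0 ≤ y.2 ∧
      ¬ ContinuousWithinAt (fun z : ℝ × ℝ => perim {x | z.1 < v z.2 x}) {z | 0 ≤ z.2} y} := by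
  choose! κ hκ using hF.calib
  have hmeas : ∀ s, Measurable (v s) := fun s => (hF.data s).1.continuous.measurable
  have hk : (0 : ℝ) < ε / 4 := by positivity
  have e4 : 4 * ((ε : ℝ) / 4) = ε := by ring
  have hcone : ∀ (τ : ℝ → ℝ), (∀ s, 0 ≤ s → 0 ≤ τ s) → ∀ l d : ℕ, Cov ε {z | 0 < z.2 ∧
      ∀ s, 0 ≤ s → s < z.2 → z.2 - 1 / ((d : ℝ) + 1) < s →
        Bad (κ (τ s)) (v (τ s)) z.1 (ε / 4 * (z.2 - s)) (1 / ((l : ℝ) + 1))} := by
    intro τ hτ l d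
    refine cov_of_cone fun p hp => ?_
    have h := cone_of_count
      (I := fun s n a σ => ∫ x in {x | |v (τ s) x - a| < σ}, |κ (τ s) n x|) (B := B)
      (j := 1 / ((l : ℝ) + 1)) (δ := 1 / ((d : ℝ) + 1)) (by positivity) hk (by positivity)
      (fun s n a σ => integral_nonneg fun x => abs_nonneg _)
      (fun s n a σ hs => (setIntegral_le_integral ((hκ _ (hτ s hs)).1 n).abs
        (Eventually.of_forall fun x => abs_nonneg _)).trans ((hκ _ (hτ s hs)).2.1 n))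
      (fun s n a₀ a r' σ r hs h0 h1 h2 => win_add (hmeas _) ((hκ _ (hτ s hs)).1 n) h0 h1 h2)
      (fun q hq => hq) p hp
    rwa [e4] at h
  have hA1 : (⋃ q : ℚ, {a : ℝ | 0 < volume {x | v q x = a}}).Countable :=
    countable_iUnion fun q => Measure.countable_meas_level_set_pos (hmeas q)
  have hA2 : (⋃ l : ℕ, {a : ℝ | ∀ σ, 0 < σ → Bad (κ 0) (v 0) a σ (1 / ((l : ℝ) + 1))}).Countable := by
    refine countable_iUnion fun l => ?_
    obtain ⟨f, -, hf⟩ := hcone (fun _ => 0) (fun _ _ => le_rfl) l 0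
    exact (countable_range fun k => f k 1).mono fun a ha => hf (a, 1)
      ⟨one_pos, fun s _ h1 _ => ha _ (mul_pos hk (sub_pos.2 h1))⟩
  refine ((cov_levels (hA1.union hA2)).union
    (cov_iUnion (ι := ℕ × ℕ) fun i => hcone id (fun _ h => h) i.1 i.2)).mono ?_
  rintro ⟨a, T⟩ ⟨h1, h2, h3⟩
  by_contra hcon
  rw [mem_union, not_or, mem_ofPred_eq, mem_union, not_or] at hcon
  obtain ⟨⟨c1, c2⟩, c3⟩ := hcon
  refine h3 (jj_cont hF hc hB hC hκ h1 (fun q => ?_) h2 fun e he => ?_)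
  · by_contra h
    exact c1 (mem_iUnion.2 ⟨q, pos_iff_ne_zero.2 h⟩)
  rcases h2.eq_or_lt with h0 | h0
  · obtain ⟨l, hl⟩ := exists_nat_one_div_lt he
    have h0' : T = 0 := h0.symm
    subst h0'
    by_contra h
    refine c2 (mem_iUnion.2 ⟨l, fun σ hσ => ?_⟩)
    by_contra hb
    exact h ⟨0, σ, 1, _, le_rfl, Or.inr rfl, hσ, one_pos, hb, by simpa using hl.le⟩
  · refine jj_good hF hc hB hC h1.le h0 hk (fun j hj => ?_) he
    obtain ⟨l, hl⟩ := exists_nat_one_div_lt hj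
    by_contra hfr
    rw [not_frequently] at hfr
    obtain ⟨s₀, hs₀, hsub⟩ := (mem_nhdsLT_iff_exists_Ioo_subset' h0).1 hfr
    obtain ⟨d, hd⟩ := exists_nat_one_div_lt (show 0 < T - s₀ from sub_pos.2 hs₀)
    refine c3 (mem_iUnion.2 ⟨(l, d), h0, fun s _ h4 h5 => ?_⟩)
    have h6 : Bad (κ s) (v s) a (ε / 4 * (T - s)) j :=
      not_not.1 (hsub ⟨by simp only at h5; linarith, h4⟩)
    exact h6.mono fun n hn => hl.le.trans hn

theorem window_joint (hN : 0 < N) {u : Zs N → ℝ} {R c a₁ a₂ : ℝ} (hu : IsWeakSolution u)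
    (hout : ∀ x t, 0 ≤ t → R ≤ ‖x‖ → u (x, t) = c) (hg : ContDiff ℝ 2 fun x => u (x, 0))
    (hc : c < a₁) (ha : a₁ < a₂)
    (hreg : ∀ x, a₁ ≤ u (x, 0) → u (x, 0) ≤ a₂ → fderiv ℝ (fun y => u (y, 0)) x ≠ 0)
    {ε : ℝ≥0} (hε : 0 < ε) :
    Cov ε {y | a₁ < y.1 ∧ y.1 < a₂ ∧ 0 ≤ y.2 ∧ ¬ ContinuousWithinAt
      (fun z : ℝ × ℝ => perimeter {x | z.1 < u (x, z.2)}) {z | 0 ≤ z.2} y} := by
  obtain ⟨M, hM⟩ := nice_extT hu hout
  obtain ⟨L, B, C₀, c', hB, hC, hc', hF⟩ := exists_flow (g := fun x => u (x, 0)) hN hM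
    (sub_extT hu.sub) (sub_neg_extT hu.super) (fun z hz => extT_of_nonpos u z.1 hz) hg hc ha hreg
  refine (flow_joint hF hc' hB hC hε).mono ?_
  rintro ⟨a, T⟩ ⟨h1, h2, h3, h4⟩
  have e2 : ∀ b t, a₁ < b → b < a₂ → 0 ≤ t →
      {x | b < cl a₁ a₂ (extT u (x, t))} = {x | b < u (x, t)} := by
    intro b t k1 k2 ht
    ext x
    simp only [mem_ofPred_eq, lt_cl_iff k1 k2, extT_of_nonneg u x ht]
  refine ⟨h1, h3, fun h5 => h4 (h5.congr_of_eventuallyEq ?_ ?_)⟩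
  · filter_upwards [self_mem_nhdsWithin, mem_nhdsWithin_of_mem_nhds
      (continuous_fst.continuousAt.preimage_mem_nhds (Ioo_mem_nhds h1 h2))] with z k1 k2
    simp only [perimeter_eq, e2 z.1 z.2 k2.1 k2.2 k1]
  · simp only [perimeter_eq, e2 a T h1 h2 h3]

end Pool.Agent.FS39
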