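import Pool.Agent.FS.H39Drop.Drop

/-! Neighbouring levels: general competitors and continuity in measure. -/

open MeasureTheory Set Filter Topology Metric
open scoped ENNReal NNReal RealInnerProductSpace symmDiff

namespace Pool.Agent.FS39

open Pool.Agent.MCF5

variable {N : ℕ} {L : ℝ≥0} {R a₁ a₂ B C₀ c : ℝ} {v : ℝ → Sp N → ℝ}

theorem jl_level (hF : Flow L R a₁ a₂ B C₀ c v) (hc : 0 < c) {κ : ℝ → ℕ → Sp N → ℝ}
    (hκ : ∀ s, 0 ≤ s → (∀ n, Integrable (κ s n)) ∧ (∀ n, ∫ x, |κ s n x| ≤ B) ∧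
      ∀ (a b : ℝ) (ψ : Sp N → ℝ), a₁ ≤ a → a < b → LipC ψ a → ∀ ε : ℝ, 0 < ε →
        ∀ᶠ n in atTop, tv (fun x => cl a b (v s x)) ≤
          tv ψ + (∫ x, |κ s n x| * |ψ x - cl a b (v s x)|) + ε)
    (hB : 0 ≤ B) (hC : 0 ≤ C₀) {a : ℝ} (ha : a₁ ≤ a) {s t σ ρ j : ℝ} (hs : 0 ≤ s) (hst : s ≤ t)
    (hσ : 0 < σ) (hρ : 0 < ρ) (hb : ¬ Bad (κ s) (v s) a σ j) {A : Set (Sp N)}
    (hA : MeasurableSet A) (hAb : Bornology.IsBounded A) (hP : perim A ≠ ∞) :
    (perim {x | a < v t x}).toReal ≤ (perim A).toReal + j +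
      (2 * N * c / ρ + 2 * ρ / σ) * volume.real ({x | a < v s x} ∆ A) := by
  obtain ⟨p, hp, hV, hPp, hup⟩ := ql_level hF ha
  have h1 : (perim {x | a < v t x}).toReal ≤ p t :=
    ENNReal.toReal_le_of_le_ofReal (hp t (hs.trans hst)).1 (hPp t (hs.trans hst))
  have h2 : p t ≤ p s :=
    fk_anti (D := fun s t => volume.real ({x | a < v s x} ∆ {x | a < v t x})) (mul_nonneg hC hB)
      (fun _ _ => measureReal_nonneg) hV hs hst
  refine h1.trans (h2.trans (le_of_forall_pos_le_add fun γ hγ => ?_))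
  obtain ⟨ψ, hψ, h01, h3, h0, htv⟩ := exists_competitor (a := a) (hF.data s).1 hc (hF.ncUp s hs)
    (hF.ncDown s hs) hσ hρ hγ (isBounded_ball.subset (fl_subset (hF.data s) ha)) hA hAb hP
  refine hup s σ _ hs hσ fun θ hθ hθσ => ?_
  have := fl_calib (hF.data s) ha hθ hθσ (hκ s hs).1
    (fun ψ hψ ε hε => (hκ s hs).2.2 a _ ψ ha (by linarith) hψ ε hε) hψ h01 h3 h0 hb
  linarith

theorem jl_static {w : Sp N → ℝ} {a : ℝ} (hw : Measurable w) (hfin : volume {x | a₁ < w x} ≠ ∞)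
    (ha : a₁ < a) (h0 : volume {x | w x = a} = 0) {γ : ℝ} (hγ : 0 < γ) :
    ∃ β : ℝ, 0 < β ∧ β ≤ a - a₁ ∧ ∀ b, |b - a| < β →
      volume.real ({x | b < w x} ∆ {x | a < w x}) ≤ γ := by
  have hlim := tendsto_measure_biInter_gt (μ := (volume : Measure (Sp N))) (a := (0 : ℝ))
    (s := fun r => {x | |w x - a| ≤ r ∧ a₁ < w x})
    (fun r _ => ((measurableSet_le (hw.sub measurable_const).abs measurable_const).inter
      (measurableSet_lt measurable_const hw)).nullMeasurableSet)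
    (fun i j _ hij x hx => ⟨hx.1.trans hij, hx.2⟩)
    ⟨1, one_pos, measure_ne_top_of_subset (fun x hx => hx.2) hfin⟩
  have hz : volume (⋂ r > (0 : ℝ), {x | |w x - a| ≤ r ∧ a₁ < w x}) = 0 := by
    refine measure_mono_null (fun x hx => ?_) h0
    have hx' := mem_iInter₂.1 hx
    have h1 : |w x - a| ≤ 0 := le_of_forall_pos_le_add fun e he => by
      simpa using (hx' e he).1
    exact sub_eq_zero.1 (abs_nonpos_iff.1 h1)
  rw [hz] at hlim
  obtain ⟨r, hr1, hr2⟩ := ((hlim.eventually (gt_mem_nhds (ENNReal.ofReal_pos.2 hγ))).and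
    (Ioo_mem_nhdsGT (sub_pos.2 ha))).exists
  refine ⟨r, hr2.1, hr2.2.le, fun b hb => ?_⟩
  refine ENNReal.toReal_le_of_le_ofReal hγ.le ((measure_mono fun x hx => ?_).trans hr1.le)
  rw [abs_lt] at hb
  have h3 := hr2.2
  rcases Set.mem_symmDiff.1 hx with ⟨h1, h2⟩ | ⟨h1, h2⟩
  · have h1' : b < w x := h1
    have h2' : w x ≤ a := not_lt.1 h2
    exact ⟨abs_le.2 ⟨by linarith, by linarith⟩, by linarith⟩
  · have h1' : a < w x := h1
    have h2' : w x ≤ b := not_lt.1 h2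
    exact ⟨abs_le.2 ⟨by linarith, by linarith⟩, by linarith⟩

theorem jl_fin (hF : Flow L R a₁ a₂ B C₀ c v) {a : ℝ} (ha : a₁ ≤ a) (s : ℝ) :
    volume {x | a < v s x} ≠ ∞ :=
  ne_top_of_le_ne_top measure_ball_lt_top.ne (measure_mono (fl_subset (hF.data s) ha))

theorem jl_tri {X Y Z : Set (Sp N)} (hX : volume X ≠ ∞) (hY : volume Y ≠ ∞) (hZ : volume Z ≠ ∞) :
    volume.real (X ∆ Z) ≤ volume.real (X ∆ Y) + volume.real (Y ∆ Z) :=
  (measureReal_mono (symmDiff_triangle _ Y _) (measure_union_ne_top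
    (ne_top_of_le_ne_top (measure_union_ne_top hX hY) (measure_mono symmDiff_subset_union))
    (ne_top_of_le_ne_top (measure_union_ne_top hY hZ) (measure_mono symmDiff_subset_union)))).trans
    (measureReal_union_le _ _)

theorem jl_joint (hF : Flow L R a₁ a₂ B C₀ c v) (hB : 0 ≤ B) (hC : 0 ≤ C₀) {a T γ : ℝ}
    (ha : a₁ < a) (hq : ∀ q : ℚ, volume {x | v q x = a} = 0) (hT : 0 ≤ T) (hγ : 0 < γ) :
    ∃ β : ℝ, 0 < β ∧ β ≤ a - a₁ ∧ ∀ b t, |b - a| < β → 0 ≤ t → |t - T| < β →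
      volume.real ({x | b < v t x} ∆ {x | a < v T x}) ≤ γ := by
  obtain ⟨r, hr, h⟩ := fm_modulus hB (mul_nonneg hC hB) (show 0 < γ / 3 by positivity)
  have hmod : ∀ b s t : ℝ, a₁ ≤ b → 0 ≤ s → s ≤ t → t - s ≤ r →
      volume.real ({x | b < v s x} ∆ {x | b < v t x}) ≤ γ / 3 := by
    intro b s t hb hs hst hts
    obtain ⟨p, hp, hV, -, -⟩ := ql_level hF hb
    exact h _ (p s) (p t) (t - s) (sub_nonneg.2 hst) hts (hp t (hs.trans hst)).1 (hp s hs).2
      fun lam hl => hV s t lam hs hst hl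
  obtain ⟨q, hq1, hq2⟩ := exists_rat_btwn (show T + r / 4 < T + r / 2 by linarith)
  obtain ⟨β, h1, h2, h3⟩ := jl_static (hF.data q).1.continuous.measurable (jl_fin hF le_rfl q) ha
    (hq q) (show 0 < γ / 3 by positivity)
  refine ⟨min β (r / 4), lt_min h1 (by positivity), (min_le_left _ _).trans h2,
    fun b t hb ht htT => ?_⟩
  have hb' : |b - a| < β := hb.trans_le (min_le_left _ _)
  have ht' := abs_lt.1 (htT.trans_le (min_le_right _ _))
  have hb1 : a₁ ≤ b := by linarith [(abs_lt.1 hb').1]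
  have k1 := hmod b t q hb1 ht (by linarith [ht'.2]) (by linarith [ht'.1])
  have k2 := h3 b hb'
  have k3 := hmod a T q ha.le hT (by linarith) (by linarith)
  rw [symmDiff_comm] at k3
  have k4 := jl_tri (jl_fin hF hb1 t) (jl_fin hF hb1 q) (jl_fin hF ha.le T)
  have k5 := jl_tri (jl_fin hF hb1 q) (jl_fin hF ha.le q) (jl_fin hF ha.le T)
  linarith

end Pool.Agent.FS39
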